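import Pool.Agent.Helper61.EP.StC
import Pool.Agent.Helper65.RL.M_PNC

/-!
# Project EP, module CNC: few directions
-/

set_option autoImplicit false

open MeasureTheory Set Filter Topology

namespace Pool.Agent.Helper27.EP

open Pool.Agent.Helper61.EP Pool.Agent.Helper20.RG Pool.Agent.Helper20.RL
open Pool.Agent.Helper65.RL

theorem nn_pos {u : ℕ} {δ η m₁ : ℝ} (h : Nn u δ η m₁) : 0 < m₁ := by
  obtain ⟨h0, h1, h2, h3⟩ := h
  have h4 : 0 < (2 : ℝ) ^ (-(δ * u)) := Real.rpow_pos_of_pos (by norm_num) _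
  exact (pos_iff_pos_of_mul_pos (h4.trans_le h2)).mpr h0

theorem nn_inv {u : ℕ} {δ η m₁ : ℝ} (h : Nn u δ η m₁) : 1 / (m₁ * η) ≤ X u δ := by
  have hm := nn_pos h
  obtain ⟨h0, h1, h2, h3⟩ := h
  rw [X_def_neg, X_neg] at h2
  have hX := X_pos u δ
  rw [div_le_iff₀ (by positivity)]
  calc (1 : ℝ) = X u δ * (X u δ)⁻¹ := (mul_inv_cancel₀ hX.ne').symm
    _ ≤ X u δ * (m₁ * η) := mul_le_mul_of_nonneg_left h2 hX.le

theorem nn_eta {u : ℕ} {δ η m₁ : ℝ} (h : Nn u δ η m₁) : 1 / η ≤ X u δ * m₁ := by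
  have hm := nn_pos h
  have hi := nn_inv h
  have h0 := h.1
  calc 1 / η = 1 / (m₁ * η) * m₁ := by field_simp
    _ ≤ X u δ * m₁ := mul_le_mul_of_nonneg_right hi hm.le

theorem hCNC (hCNW : StCNW) : StCNC := by
  intro A p s γ κ Cf ε e hA hEx hκ hCf hε he
  have hEx' := hEx
  obtain ⟨hs1, hsp, hp2, hγ0, hγp, hex⟩ := hEx
  have hp0 : 0 < p := by linarith
  set ε₂ : ℝ := min ε (p * e / 2) with hε₂
  have hε₂0 : 0 < ε₂ := lt_min hε (by positivity)
  obtain ⟨C₀, ε₁, hC₀, hε₁, hW⟩ := hCNW.1 A p s γ ε₂ Cf hA hEx' hε₂0 hCf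
  obtain ⟨u₀, hu₀⟩ := poly_ev 0 (δ := e / 2) (by linarith) (1000 * (1 + A))
  set P₀ : ℝ := 70 * (4 * (κ * 30000)) * C₀ with hP₀
  have hP₀0 : 0 ≤ P₀ := by positivity
  obtain ⟨C, ε', hC, hε', h⟩ := fin_step (q := p) (e := p - 3 * ε₁ / 4) (P₀ := P₀) 1
    (by linarith) hP₀0
  refine ⟨u₀, ε₁ / 8, C, ε', by linarith, hC, hε', ?_⟩
  intro δ u b K η m₁ hδ hδ0 huu hu hN hb hK hor hcase
  refine h u _ ?_
  have hu' : (1 : ℝ) ≤ u := by exact_mod_cast hu
  have hu0' : (0 : ℝ) < u := by linarith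
  have hm := nn_pos hN
  have h0 := hN.1
  have hinv := nn_eta hN
  have hi := nn_inv hN
  have hbig := hu₀ u huu
  rw [pow_zero, mul_one] at hbig
  -- the condition of `CNW`
  have hcond : (b : ℝ) ≤ (p - ε₂) * u ∨ (K : ℝ) ≤ Cf * (2 : ℝ) ^ ((p - ε₂) * u) := by
    rcases hor with h1 | h1
    · left
      by_contra hcon
      push Not at hcon
      have hn := ns_le (u := u) (b := b) (A := A) (σ := p) hu hA hp0
      have hβ : max 0 (1 - (b : ℝ) / u / p) ≤ e / 2 := by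
        apply max_le (by linarith)
        have h2 : p - ε₂ ≤ (b : ℝ) / u := by
          rw [le_div_iff₀ hu0']
          exact hcon.le
        have h3 : ε₂ ≤ p * e / 2 := min_le_right _ _
        have h4 : 1 - e / 2 ≤ (b : ℝ) / u / p := by
          rw [le_div_iff₀ hp0]
          nlinarith
        linarith
      have hn2 : ns u b A p ≤ (1 + A) * X u (e / 2) :=
        hn.trans (mul_le_mul_of_nonneg_left (X_mono u hβ) (by linarith))
      have hXX : X u e = X u (e / 2) * X u (e / 2) := by rw [← X_add]; congr 1; ring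
      have h5 : X u e ≤ m₁ := h1
      have hXp := X_pos u (e / 2)
      have h1A : 1 ≤ X u (e / 2) := one_le_X u (by linarith)
      have h6 : 1000 * (1 + A) * X u (e / 2) ≤ X u e := by
        rw [hXX]
        exact mul_le_mul_of_nonneg_right hbig hXp.le
      have h8 : X u (e / 2) ≤ (1 + A) * X u (e / 2) :=
        le_mul_of_one_le_left hXp.le (by linarith)
      rcases hcase with h7 | h7
      · nlinarith
      · nlinarith
    · right
      refine h1.trans ?_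
      apply mul_le_mul_of_nonneg_left _ (by linarith)
      apply Real.rpow_le_rpow_of_exponent_le (by norm_num)
      apply mul_le_mul_of_nonneg_right _ hu0'.le
      have := min_le_left ε (p * e / 2)
      linarith
  have hWb := hW u b K hu hb hK hcond
  set n₁ := ns u b A p with hn₁
  have hn1 : 1 ≤ n₁ := one_le_ns hA
  set W := min (10 ^ 6 * (u : ℝ) ^ 5 * 2 ^ b) (K : ℝ) with hWdef
  have hW0 : 0 ≤ W := le_min (by positivity) (by positivity)
  have hmP : m₁ ≤ 1000 * n₁ := by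
    rcases hcase with h1 | h1 <;> linarith
  set z := X u δ with hz
  have hz1 : 1 ≤ z := one_le_X u hδ.le
  have hz0 : 0 < z := X_pos u δ
  have hinv' : 1 / η ≤ z * (1000 * n₁) := hinv.trans (by gcongr)
  have hX1 : X u (1 - s) ≤ 1 := (X_mono u (by linarith : 1 - s ≤ 0)).trans (X_zero u).le
  have hX10 := X_pos u (1 - s)
  set Y := X u ((1 - s) / 2) with hY
  have hY0 : 0 < Y := X_pos u _
  have h32 : n₁ ^ (3 / 2 : ℝ) = n₁ * Real.sqrt n₁ := rpow_three_half (by linarith)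
  have hM : M1 κ u b A p (D8 s u) (η / 2) ≤
      κ * 30000 * ((u : ℝ) * z) * (n₁ + n₁ ^ (3 / 2 : ℝ) * Y) := by
    refine (M1_le (q := s) (by linarith) hA h0).trans ?_
    rw [← hn₁, ← hY, h32]
    have hs := Real.sqrt_nonneg n₁
    have huz : 1 ≤ (u : ℝ) * z := one_le_mul_of_one_le_of_one_le hu' hz1
    have h1 : n₁ ≤ (u : ℝ) * z * n₁ := le_mul_of_one_le_left (by linarith) huz
    have h2 : 16 * X u (1 - s) * (1 / η) ≤ 16000 * ((u : ℝ) * z * n₁) := by
      calc 16 * X u (1 - s) * (1 / η) ≤ 16 * 1 * (z * (1000 * n₁)) := by gcongr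
        _ = 16000 * (1 * z * n₁) := by ring
        _ ≤ 16000 * ((u : ℝ) * z * n₁) := by gcongr
    have h3 : 6 * (u : ℝ) * Real.sqrt n₁ * Y * (1 / η) ≤
        6000 * ((u : ℝ) * z * (n₁ * Real.sqrt n₁ * Y)) := by
      calc 6 * (u : ℝ) * Real.sqrt n₁ * Y * (1 / η)
          ≤ 6 * (u : ℝ) * Real.sqrt n₁ * Y * (z * (1000 * n₁)) := by gcongr
        _ = _ := by ring
    have h4 : 0 ≤ (u : ℝ) * z * (n₁ * Real.sqrt n₁ * Y) := by positivity
    have h5 : 0 ≤ (u : ℝ) * z * n₁ := by positivity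
    have h6 : n₁ + 16 * X u (1 - s) * (1 / η) + 6 * (u : ℝ) * Real.sqrt n₁ * Y * (1 / η) ≤
        30000 * ((u : ℝ) * z) * (n₁ + n₁ * Real.sqrt n₁ * Y) := by
      have e7 : 30000 * ((u : ℝ) * z) * (n₁ + n₁ * Real.sqrt n₁ * Y) =
          30000 * ((u : ℝ) * z * n₁) + 30000 * ((u : ℝ) * z * (n₁ * Real.sqrt n₁ * Y)) := by ring
      rw [e7]
      linarith
    calc κ * (n₁ + 16 * X u (1 - s) * (1 / η) + 6 * (u : ℝ) * Real.sqrt n₁ * Y * (1 / η))
        ≤ κ * (30000 * ((u : ℝ) * z) * (n₁ + n₁ * Real.sqrt n₁ * Y)) :=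
          mul_le_mul_of_nonneg_left h6 (by linarith)
      _ = _ := by ring
  have hD8 : 0 ≤ D8 s u := by unfold D8; positivity
  have hM0 : 0 ≤ M1 κ u b A p (D8 s u) (η / 2) := M1_nonneg (by linarith) hA hD8 (by linarith)
  have e1 : 70 / (m₁ * η) = 70 * (1 / (m₁ * η)) := by ring
  rw [e1]
  have hYe : (2 : ℝ) ^ ((1 - s) / 2 * u) = Y := rfl
  rw [hYe] at hWb
  have hzz : z * z ≤ X u (ε₁ / 4) := by
    rw [hz, ← X_add]
    exact X_mono u (by linarith)
  have h33 : 0 ≤ n₁ ^ (3 / 2 : ℝ) := Real.rpow_nonneg (by linarith) _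
  have hXq := X_pos u (ε₁ / 4)
  calc 70 * (1 / (m₁ * η)) * W * (4 * M1 κ u b A p (D8 s u) (η / 2))
      ≤ 70 * z * W *
        (4 * (κ * 30000 * ((u : ℝ) * z) * (n₁ + n₁ ^ (3 / 2 : ℝ) * Y))) := by gcongr
    _ = 70 * (4 * (κ * 30000)) * (u : ℝ) * (z * z) * (W * (n₁ + n₁ ^ (3 / 2 : ℝ) * Y)) := by ring
    _ ≤ 70 * (4 * (κ * 30000)) * (u : ℝ) * X u (ε₁ / 4) * (C₀ * (2 : ℝ) ^ ((p - ε₁) * u)) := by
        gcongr
    _ = P₀ * (u : ℝ) ^ 1 * (X u (ε₁ / 4) * X u (p - ε₁)) := by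
        rw [hP₀, pow_one]
        change _ * (C₀ * X u (p - ε₁)) = _
        ring
    _ = P₀ * (u : ℝ) ^ 1 * X u (p - 3 * ε₁ / 4) := by
        rw [← X_add]
        congr 2
        ring

end Pool.Agent.Helper27.EP
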