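import Pool.Agent.Helper61.EP.StL

/-!
# Project EP, module LPR: numbers
-/

set_option autoImplicit false

open MeasureTheory Set Filter Topology
open scoped ENNReal

namespace Pool.Agent.Helper27.EP

open Pool.Agent.Helper61.EPL

/-- Cauchy-Schwarz with weights -/
theorem cs {ι : Type} (S : Finset ι) (b w G : ι → ℝ≥0∞) (hw0 : ∀ i, w i ≠ 0)
    (hwt : ∀ i, w i ≠ ⊤) :
    (∑ i ∈ S, b i * G i) ^ 2 ≤ (∑ i ∈ S, b i * w i) * ∑ i ∈ S, b i * (w i)⁻¹ * G i ^ 2 := by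
  have h := ENNReal.inner_le_Lp_mul_Lq S (fun i => (b i * w i) ^ (1 / 2 : ℝ))
    (fun i => (b i * (w i)⁻¹) ^ (1 / 2 : ℝ) * G i) Real.HolderConjugate.two_two
  have e1 : ∀ i, (b i * w i) ^ (1 / 2 : ℝ) * ((b i * (w i)⁻¹) ^ (1 / 2 : ℝ) * G i) =
      b i * G i := by
    intro i
    rw [← mul_assoc, ← ENNReal.mul_rpow_of_nonneg _ _ (by norm_num)]
    have : b i * w i * (b i * (w i)⁻¹) = b i ^ (2 : ℝ) := by
      calc b i * w i * (b i * (w i)⁻¹) = b i * b i * (w i * (w i)⁻¹) := by ring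
        _ = b i ^ (2 : ℝ) := by
            rw [ENNReal.mul_inv_cancel (hw0 i) (hwt i), mul_one,
              show (2 : ℝ) = ((2 : ℕ) : ℝ) by norm_num, ENNReal.rpow_natCast, sq]
    rw [this, ← ENNReal.rpow_mul]
    norm_num
  have e2 : ∀ i, ((b i * w i) ^ (1 / 2 : ℝ)) ^ (2 : ℝ) = b i * w i := by
    intro i
    rw [← ENNReal.rpow_mul]
    norm_num
  have e3 : ∀ i, ((b i * (w i)⁻¹) ^ (1 / 2 : ℝ) * G i) ^ (2 : ℝ) = b i * (w i)⁻¹ * G i ^ 2 := by
    intro i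
    rw [ENNReal.mul_rpow_of_nonneg _ _ (by norm_num), ← ENNReal.rpow_mul]
    norm_num
  simp only [e1, e2, e3] at h
  have h2 := pow_le_pow_left' h 2
  refine h2.trans (le_of_eq ?_)
  rw [mul_pow]
  have e4 : ∀ x : ℝ≥0∞, (x ^ (1 / 2 : ℝ)) ^ 2 = x := by
    intro x
    rw [← ENNReal.rpow_natCast, ← ENNReal.rpow_mul]
    norm_num
  rw [e4, e4]

/-- the triangular sum -/
theorem tri {ρ C₁ : ℝ} (hρ0 : 0 < ρ) (hρ1 : ρ < 1) (a : ℕ → ℝ) (ha : ∀ u, 0 ≤ a u ∧ a u ≤ C₁) :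
    ∀ m n : ℕ, ∑ i ∈ Finset.range m, ρ ^ (n + i) * a (n + i) ≤ C₁ * ρ ^ n / (1 - ρ) ∧
      (∑ i ∈ Finset.range m, ρ ^ (n + i) * a (n + i)) ^ 2 ≤
        2 * C₁ / (1 - ρ) * ∑ i ∈ Finset.range m, (ρ ^ (n + i)) ^ 2 * a (n + i) := by
  have hC : 0 ≤ C₁ := (ha 0).1.trans (ha 0).2
  have h1ρ : 0 < 1 - ρ := by linarith
  intro m
  induction m with
  | zero =>
    intro n
    simp only [Finset.range_zero, Finset.sum_empty]
    refine ⟨by positivity, by norm_num⟩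
  | succ m ih =>
    intro n
    obtain ⟨h1, h2⟩ := ih (n + 1)
    have e1 : ∑ i ∈ Finset.range (m + 1), ρ ^ (n + i) * a (n + i) =
        ∑ i ∈ Finset.range m, ρ ^ (n + 1 + i) * a (n + 1 + i) + ρ ^ n * a n := by
      rw [Finset.sum_range_succ']
      congr 1
      apply Finset.sum_congr rfl
      intro i _
      rw [show n + (i + 1) = n + 1 + i by ring]
    have e2 : ∑ i ∈ Finset.range (m + 1), (ρ ^ (n + i)) ^ 2 * a (n + i) =
        ∑ i ∈ Finset.range m, (ρ ^ (n + 1 + i)) ^ 2 * a (n + 1 + i) + (ρ ^ n) ^ 2 * a n := by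
      rw [Finset.sum_range_succ']
      congr 1
      apply Finset.sum_congr rfl
      intro i _
      rw [show n + (i + 1) = n + 1 + i by ring]
    rw [e1, e2]
    set T := ∑ i ∈ Finset.range m, ρ ^ (n + 1 + i) * a (n + 1 + i) with hT
    have hρn : 0 < ρ ^ n := pow_pos hρ0 n
    have ha0 := (ha n).1
    have ha1 := (ha n).2
    have hx : ρ ^ n * a n ≤ C₁ * ρ ^ n := by nlinarith
    have h3 : T + ρ ^ n * a n ≤ C₁ * ρ ^ n / (1 - ρ) := by
      have e3 : C₁ * ρ ^ (n + 1) / (1 - ρ) + C₁ * ρ ^ n = C₁ * ρ ^ n / (1 - ρ) := by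
        rw [pow_succ]
        field_simp
        ring
      linarith
    refine ⟨h3, ?_⟩
    have hx0 : 0 ≤ ρ ^ n * a n := by positivity
    have h4 : (T + ρ ^ n * a n) ^ 2 ≤ T ^ 2 + 2 * (ρ ^ n * a n) * (C₁ * ρ ^ n / (1 - ρ)) := by
      have h5 : (ρ ^ n * a n) * (T + ρ ^ n * a n) ≤ (ρ ^ n * a n) * (C₁ * ρ ^ n / (1 - ρ)) :=
        mul_le_mul_of_nonneg_left h3 hx0
      nlinarith [mul_nonneg hx0 hx0]
    calc (T + ρ ^ n * a n) ^ 2 ≤ T ^ 2 + 2 * (ρ ^ n * a n) * (C₁ * ρ ^ n / (1 - ρ)) := h4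
      _ ≤ 2 * C₁ / (1 - ρ) * ∑ i ∈ Finset.range m, (ρ ^ (n + 1 + i)) ^ 2 * a (n + 1 + i) +
          2 * (ρ ^ n * a n) * (C₁ * ρ ^ n / (1 - ρ)) := by linarith
      _ = 2 * C₁ / (1 - ρ) * (∑ i ∈ Finset.range m, (ρ ^ (n + 1 + i)) ^ 2 * a (n + 1 + i) +
          (ρ ^ n) ^ 2 * a n) := by
          field_simp

theorem Icc_sum (U : ℕ) (f : ℕ → ℝ) :
    ∑ u ∈ Finset.Icc 2 U, f u = ∑ i ∈ Finset.range (U - 1), f (2 + i) := by
  have e : Finset.Icc 2 U = Finset.Ico 2 (U + 1) := by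
    ext x
    simp only [Finset.mem_Icc, Finset.mem_Ico]
    omega
  rw [e, Finset.sum_Ico_eq_sum_range]
  congr 1

theorem hLPR : StLPR := by
  intro p hp1 hp2
  set ρ : ℝ := (2 : ℝ) ^ (-(p / 2)) with hρ
  set r : ℝ := (2 : ℝ) ^ ((2 - p) / 2) with hr
  have hρ0 : 0 < ρ := Real.rpow_pos_of_pos (by norm_num) _
  have hρ1 : ρ < 1 := Real.rpow_lt_one_of_one_lt_of_neg (by norm_num) (by linarith)
  have hr1 : 1 < r := Real.one_lt_rpow (by norm_num) (by linarith)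
  have hr0 : 0 < r := by linarith
  refine ⟨max 1 (2 / ((1 - ρ) * (r - 1) ^ 2)), le_max_left _ _, ?_⟩
  intro C₁ U a G hC₁ ha
  set b : ℕ → ℝ≥0∞ := fun u => ENNReal.ofReal ((2 : ℝ) ^ (-(u : ℝ)) * a u) with hb
  set w : ℕ → ℝ≥0∞ := fun v => ENNReal.ofReal (r ^ v) with hw
  set B : ℤ → ℝ≥0∞ := fun l => ENNReal.ofReal ((2 : ℝ) ^ ((p - 2) * (l : ℝ))) with hB
  have hw0 : ∀ v, w v ≠ 0 := by
    intro v
    rw [hw]
    simp only [ne_eq, ENNReal.ofReal_eq_zero, not_le]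
    positivity
  have hwt : ∀ v, w v ≠ ⊤ := fun v => ENNReal.ofReal_ne_top
  set S : Finset (Σ _ : ℕ, ℕ) := (Finset.Icc 2 U).sigma (fun u => Finset.range u) with hS
  set S₀ : ℝ≥0∞ := ∑' h : ℤ, B h * G h ^ 2 with hS₀
  set W : ℝ≥0∞ := ∑ x ∈ S, b x.1 * w x.2 with hW
  -- the shift
  have hshift : ∀ v : ℕ, ∑' l : ℤ, B l * G (l + (v : ℤ)) ^ 2 = w v * w v * S₀ := by
    intro v
    have h1 := (Equiv.addRight (v : ℤ)).tsum_eq (fun h : ℤ => B (h - (v : ℤ)) * G h ^ 2)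
    simp only [Equiv.coe_addRight, add_sub_cancel_right] at h1
    rw [h1, hS₀, ← ENNReal.tsum_mul_left]
    apply tsum_congr
    intro h
    have h2 : B (h - (v : ℤ)) = w v * w v * B h := by
      rw [hB, hw]
      simp only
      rw [← ENNReal.ofReal_mul (by positivity), ← ENNReal.ofReal_mul (by positivity)]
      congr 1
      rw [hr, ← Real.rpow_natCast, ← Real.rpow_mul (by norm_num), ← Real.rpow_add (by norm_num),
        ← Real.rpow_add (by norm_num)]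
      congr 1
      push_cast
      ring
    rw [h2]
    ring
  -- main chain
  have hmain : ∑' l : ℤ, B l * (∑ u ∈ Finset.Icc 2 U, b u * ∑ v ∈ Finset.range u,
      G (l + (v : ℤ))) ^ 2 ≤ W * W * S₀ := by
    have h1 : ∀ l : ℤ, B l * (∑ u ∈ Finset.Icc 2 U, b u * ∑ v ∈ Finset.range u,
        G (l + (v : ℤ))) ^ 2 ≤
        W * ∑ x ∈ S, b x.1 * (w x.2)⁻¹ * (B l * G (l + (x.2 : ℤ)) ^ 2) := by
      intro l
      have e1 : ∑ u ∈ Finset.Icc 2 U, b u * ∑ v ∈ Finset.range u, G (l + (v : ℤ)) =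
          ∑ x ∈ S, b x.1 * G (l + (x.2 : ℤ)) := by
        rw [hS, Finset.sum_sigma]
        apply Finset.sum_congr rfl
        intro u _
        rw [Finset.mul_sum]
      rw [e1]
      calc B l * (∑ x ∈ S, b x.1 * G (l + (x.2 : ℤ))) ^ 2
          ≤ B l * (W * ∑ x ∈ S, b x.1 * (w x.2)⁻¹ * G (l + (x.2 : ℤ)) ^ 2) := by
            gcongr
            exact cs S (fun x => b x.1) (fun x => w x.2) (fun x => G (l + (x.2 : ℤ)))
              (fun x => hw0 _) (fun x => hwt _)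
        _ = W * ∑ x ∈ S, b x.1 * (w x.2)⁻¹ * (B l * G (l + (x.2 : ℤ)) ^ 2) := by
            rw [mul_left_comm, Finset.mul_sum]
            congr 1
            apply Finset.sum_congr rfl
            intro x _
            ring
    refine (ENNReal.tsum_le_tsum h1).trans ?_
    rw [ENNReal.tsum_mul_left, mul_assoc]
    gcongr
    rw [Summable.tsum_finsetSum (fun _ _ => ENNReal.summable)]
    have h2 : ∀ x ∈ S, ∑' l : ℤ, b x.1 * (w x.2)⁻¹ * (B l * G (l + (x.2 : ℤ)) ^ 2) =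
        b x.1 * w x.2 * S₀ := by
      intro x _
      rw [ENNReal.tsum_mul_left, hshift x.2]
      calc b x.1 * (w x.2)⁻¹ * (w x.2 * w x.2 * S₀)
          = b x.1 * ((w x.2)⁻¹ * w x.2) * w x.2 * S₀ := by ring
        _ = b x.1 * w x.2 * S₀ := by
            rw [ENNReal.inv_mul_cancel (hw0 _) (hwt _), mul_one]
    rw [Finset.sum_congr rfl h2, ← Finset.sum_mul]
  refine hmain.trans ?_
  -- the bound of `W`
  set T : ℝ := ∑ u ∈ Finset.Icc 2 U, ρ ^ u * a u with hT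
  have hT0 : 0 ≤ T := Finset.sum_nonneg (fun u _ => mul_nonneg (by positivity) (ha u).1)
  have hWT : W ≤ ENNReal.ofReal (T / (r - 1)) := by
    rw [hW, hS, Finset.sum_sigma, hT, Finset.sum_div, ENNReal.ofReal_sum_of_nonneg]
    · apply Finset.sum_le_sum
      intro u _
      have e1 : ∑ v ∈ Finset.range u, w v = ENNReal.ofReal (∑ v ∈ Finset.range u, r ^ v) := by
        rw [ENNReal.ofReal_sum_of_nonneg (fun v _ => by positivity)]
      simp only
      rw [← Finset.mul_sum, e1, hb]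
      simp only
      have hau := (ha u).1
      rw [← ENNReal.ofReal_mul (by positivity)]
      apply ENNReal.ofReal_le_ofReal
      have e2 : ∑ v ∈ Finset.range u, r ^ v ≤ r ^ u / (r - 1) := by
        rw [geom_sum_eq hr1.ne']
        apply div_le_div_of_nonneg_right _ (by linarith)
        linarith
      have e3 : (2 : ℝ) ^ (-(u : ℝ)) * r ^ u = ρ ^ u := by
        rw [hr, hρ, ← Real.rpow_natCast, ← Real.rpow_mul (by norm_num),
          ← Real.rpow_add (by norm_num), ← Real.rpow_natCast, ← Real.rpow_mul (by norm_num)]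
        congr 1
        ring
      calc (2 : ℝ) ^ (-(u : ℝ)) * a u * ∑ v ∈ Finset.range u, r ^ v
          ≤ (2 : ℝ) ^ (-(u : ℝ)) * a u * (r ^ u / (r - 1)) :=
            mul_le_mul_of_nonneg_left e2 (by positivity)
        _ = (2 : ℝ) ^ (-(u : ℝ)) * r ^ u * a u / (r - 1) := by ring
        _ = ρ ^ u * a u / (r - 1) := by rw [e3]
    · intro u _
      have := (ha u).1
      have : 0 ≤ ρ ^ u * a u := by positivity
      exact div_nonneg this (by linarith)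
  have htri := (tri hρ0 hρ1 a ha (U - 1) 2).2
  rw [← Icc_sum U (fun u => ρ ^ u * a u), ← Icc_sum U (fun u => (ρ ^ u) ^ 2 * a u), ← hT] at htri
  set Q : ℝ := ∑ u ∈ Finset.Icc 2 U, (ρ ^ u) ^ 2 * a u with hQ
  have hQ0 : 0 ≤ Q := Finset.sum_nonneg (fun u _ => mul_nonneg (by positivity) (ha u).1)
  have hQe : ∑ u ∈ Finset.Icc 2 U, ENNReal.ofReal ((2 : ℝ) ^ (-(p * u)) * a u) =
      ENNReal.ofReal Q := by
    rw [hQ, ENNReal.ofReal_sum_of_nonneg (fun u _ => mul_nonneg (by positivity) (ha u).1)]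
    apply Finset.sum_congr rfl
    intro u _
    congr 2
    rw [hρ, ← pow_mul, ← Real.rpow_natCast, ← Real.rpow_mul (by norm_num)]
    congr 1
    push_cast
    ring
  rw [hQe]
  have hr2 : 0 < r - 1 := by linarith
  have h1ρ : 0 < 1 - ρ := by linarith
  have hWW : W * W ≤ ENNReal.ofReal (max 1 (2 / ((1 - ρ) * (r - 1) ^ 2)) * C₁) *
      ENNReal.ofReal Q := by
    calc W * W ≤ ENNReal.ofReal (T / (r - 1)) * ENNReal.ofReal (T / (r - 1)) := by gcongr
      _ = ENNReal.ofReal (T / (r - 1) * (T / (r - 1))) := by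
          rw [ENNReal.ofReal_mul (by positivity)]
      _ ≤ ENNReal.ofReal (max 1 (2 / ((1 - ρ) * (r - 1) ^ 2)) * C₁ * Q) := by
          apply ENNReal.ofReal_le_ofReal
          calc T / (r - 1) * (T / (r - 1)) = T ^ 2 / (r - 1) ^ 2 := by
                rw [div_mul_div_comm, ← sq, ← sq]
            _ ≤ (2 * C₁ / (1 - ρ) * Q) / (r - 1) ^ 2 :=
                div_le_div_of_nonneg_right htri (by positivity)
            _ = 2 / ((1 - ρ) * (r - 1) ^ 2) * C₁ * Q := by field_simp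
            _ ≤ max 1 (2 / ((1 - ρ) * (r - 1) ^ 2)) * C₁ * Q := by
                have := le_max_right 1 (2 / ((1 - ρ) * (r - 1) ^ 2))
                gcongr
      _ = _ := by rw [ENNReal.ofReal_mul (by positivity)]
  exact mul_le_mul_left hWW S₀

end Pool.Agent.Helper27.EP
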