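import Pool.Agent.Helper61.EP.StL

/-!
# Project EP, module LX3: the exceptional set of the main part
-/

set_option autoImplicit false

open MeasureTheory Set Filter Topology
open scoped ENNReal

namespace Pool.Agent.Helper27.EP

open Pool.Agent.Helper68.LM (Pl BB)
open Pool.Agent.Helper20.RG
open Pool.Agent.Helper68.EP
open Pool.Agent.Helper61.EP (Zc cutf)
open Pool.Agent.Helper61.EPL

/-- Fatou for sums -/
theorem tsum_liminf_le (a : ℕ → ℤ → ℝ≥0∞) :
    ∑' l : ℤ, liminf (fun U => a U l) atTop ≤ liminf (fun U => ∑' l : ℤ, a U l) atTop := by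
  have h := lintegral_liminf_le (μ := (Measure.count : Measure ℤ)) (u := (atTop : Filter ℕ))
    (f := a) (fun i => measurable_of_countable _)
  simpa only [lintegral_count] using h

theorem mul_liminf_le (B : ℝ≥0∞) (a : ℕ → ℝ≥0∞) :
    B * liminf a atTop ≤ liminf (fun U => B * a U) atTop := by
  rw [liminf_eq_iSup_iInf_of_nat, liminf_eq_iSup_iInf_of_nat, ENNReal.mul_iSup]
  apply iSup_mono
  intro n
  apply le_iInf₂
  intro i hi
  gcongr
  exact iInf₂_le i hi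

/-- Chebyshev and Fatou for one level and one scale -/
theorem one_scale (F : ℕ → Pl → ℝ) (hF : ∀ U, Measurable (F U)) (c : ℝ≥0∞) (hc0 : c ≠ 0)
    (hct : c ≠ ⊤) :
    volume {x | c < liminf (fun U => ‖F U x‖ₑ) atTop} ≤
      (c ^ 2)⁻¹ * liminf (fun U => ∫⁻ x, ‖F U x‖ₑ ^ 2) atTop := by
  have hm : ∀ U, Measurable (fun x => ‖F U x‖ₑ ^ 2) := fun U => (hF U).enorm.pow_const 2
  have h1 : {x | c < liminf (fun U => ‖F U x‖ₑ) atTop} ⊆
      {x | c ^ 2 ≤ liminf (fun U => ‖F U x‖ₑ ^ 2) atTop} := by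
    intro x hx
    rw [mem_setOf_eq] at hx ⊢
    have hx' : ∀ᶠ U in atTop, c < ‖F U x‖ₑ := eventually_lt_of_lt_liminf hx
    apply le_liminf_of_le
    · isBoundedDefault
    · filter_upwards [hx'] with U hU
      exact pow_le_pow_left' hU.le 2
  have h2 : volume {x | c ^ 2 ≤ liminf (fun U => ‖F U x‖ₑ ^ 2) atTop} ≤
      (∫⁻ x, liminf (fun U => ‖F U x‖ₑ ^ 2) atTop) / c ^ 2 :=
    meas_ge_le_lintegral_div (Measurable.liminf hm).aemeasurable (pow_ne_zero 2 hc0)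
      (ENNReal.pow_ne_top hct)
  have h3 : ∫⁻ x, liminf (fun U => ‖F U x‖ₑ ^ 2) atTop ≤
      liminf (fun U => ∫⁻ x, ‖F U x‖ₑ ^ 2) atTop := lintegral_liminf_le hm
  refine (measure_mono h1).trans (h2.trans ?_)
  rw [ENNReal.div_eq_inv_mul]
  gcongr

theorem hLX3 (hLZF : StLZF) (hLPL : StLPL) : StLX3 := by
  intro A p hA hp1 hp2
  obtain ⟨C, hC, h⟩ := hLPL A p hA hp1 hp2
  refine ⟨16 * C, by linarith, ?_⟩
  intro φ τ c hG hGap U₀ f hU₀ hf hf0
  have hbound := fun U => h φ τ c hG hGap U₀ U f hU₀ hf hf0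
  have hBB : ∀ (l k : ℤ) (U : ℕ), Measurable (fun x => ∑ u ∈ Finset.Ioc U₀ U,
      Zc c φ τ u k (cutf f l u) x) := by
    intro l k U
    exact (hLZF.2.1 (Finset.Ioc U₀ U) (fun u => Zc c φ τ u k (cutf f l u))
      (fun u _ => (hLZF.1 φ τ c hG u k (cutf f l u) ((hLZF.2.2.2.2 f hf l).2 u)).1)).1.1
  set I : ℕ → ℤ → ℤ → ℝ≥0∞ := fun U l k => ∫⁻ x, ‖∑ u ∈ Finset.Ioc U₀ U,
    Zc c φ τ u k (cutf f l u) x‖ₑ ^ 2 with hI
  set B : ℤ → ℝ≥0∞ := fun l => ENNReal.ofReal ((2 : ℝ) ^ ((p - 2) * (l : ℝ))) with hB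
  set J : ℝ≥0∞ := ∫⁻ x, ENNReal.ofReal (f x) ^ p with hJ
  have hlev : ∀ l : ℤ, ENNReal.ofReal ((2 : ℝ) ^ (p * (l : ℝ))) * volume {x | ∃ k : ℤ,
        ENNReal.ofReal ((2 : ℝ) ^ l / 4) < liminf (fun U : ℕ =>
          ‖∑ u ∈ Finset.Ioc U₀ U, Zc c φ τ u k (cutf f l u) x‖ₑ) atTop} ≤
      16 * liminf (fun U => B l * ∑' k : ℤ, I U l k) atTop := by
    intro l
    set cl : ℝ≥0∞ := ENNReal.ofReal ((2 : ℝ) ^ l / 4) with hcl
    have hcpos : (0 : ℝ) < (2 : ℝ) ^ l / 4 := by positivity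
    have hc0 : cl ≠ 0 := by
      rw [hcl]
      simp only [ne_eq, ENNReal.ofReal_eq_zero, not_le]
      exact hcpos
    have hct : cl ≠ ⊤ := ENNReal.ofReal_ne_top
    have h1 : volume {x | ∃ k : ℤ, cl < liminf (fun U : ℕ =>
          ‖∑ u ∈ Finset.Ioc U₀ U, Zc c φ τ u k (cutf f l u) x‖ₑ) atTop} ≤
        (cl ^ 2)⁻¹ * liminf (fun U => ∑' k : ℤ, I U l k) atTop := by
      rw [setOf_exists]
      refine (measure_iUnion_le _).trans ?_
      calc ∑' k : ℤ, volume {x | cl < liminf (fun U : ℕ =>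
            ‖∑ u ∈ Finset.Ioc U₀ U, Zc c φ τ u k (cutf f l u) x‖ₑ) atTop}
          ≤ ∑' k : ℤ, (cl ^ 2)⁻¹ * liminf (fun U => I U l k) atTop := by
            apply ENNReal.tsum_le_tsum
            intro k
            exact one_scale (fun U x => ∑ u ∈ Finset.Ioc U₀ U, Zc c φ τ u k (cutf f l u) x)
              (hBB l k) cl hc0 hct
        _ = (cl ^ 2)⁻¹ * ∑' k : ℤ, liminf (fun U => I U l k) atTop := ENNReal.tsum_mul_left
        _ ≤ (cl ^ 2)⁻¹ * liminf (fun U => ∑' k : ℤ, I U l k) atTop := by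
            gcongr
            exact tsum_liminf_le (fun U k => I U l k)
    have h2 : ENNReal.ofReal ((2 : ℝ) ^ (p * (l : ℝ))) * (cl ^ 2)⁻¹ = 16 * B l := by
      rw [hcl, hB, ← ENNReal.ofReal_pow hcpos.le, ← ENNReal.ofReal_inv_of_pos (by positivity),
        ← ENNReal.ofReal_mul (by positivity)]
      have e16 : (16 : ℝ≥0∞) = ENNReal.ofReal 16 := by norm_num
      simp only
      rw [e16, ← ENNReal.ofReal_mul (by norm_num)]
      congr 1
      have e1 : (2 : ℝ) ^ ((p - 2) * (l : ℝ)) = (2 : ℝ) ^ (p * (l : ℝ)) * (((2 : ℝ) ^ l) ^ 2)⁻¹ := by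
        rw [← Real.rpow_intCast, ← Real.rpow_natCast, ← Real.rpow_mul (by norm_num),
          ← Real.rpow_neg (by norm_num), ← Real.rpow_add (by norm_num)]
        congr 1
        push_cast
        ring
      rw [e1]
      field_simp
      ring
    calc ENNReal.ofReal ((2 : ℝ) ^ (p * (l : ℝ))) * volume {x | ∃ k : ℤ, cl < liminf (fun U : ℕ =>
          ‖∑ u ∈ Finset.Ioc U₀ U, Zc c φ τ u k (cutf f l u) x‖ₑ) atTop}
        ≤ ENNReal.ofReal ((2 : ℝ) ^ (p * (l : ℝ))) *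
          ((cl ^ 2)⁻¹ * liminf (fun U => ∑' k : ℤ, I U l k) atTop) := by gcongr
      _ = 16 * (B l * liminf (fun U => ∑' k : ℤ, I U l k) atTop) := by
          rw [← mul_assoc, h2, mul_assoc]
      _ ≤ 16 * liminf (fun U => B l * ∑' k : ℤ, I U l k) atTop := by
          gcongr
          exact mul_liminf_le _ _
  calc ∑' l : ℤ, ENNReal.ofReal ((2 : ℝ) ^ (p * (l : ℝ))) * volume {x | ∃ k : ℤ,
        ENNReal.ofReal ((2 : ℝ) ^ l / 4) < liminf (fun U : ℕ =>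
          ‖∑ u ∈ Finset.Ioc U₀ U, Zc c φ τ u k (cutf f l u) x‖ₑ) atTop}
      ≤ ∑' l : ℤ, 16 * liminf (fun U => B l * ∑' k : ℤ, I U l k) atTop :=
        ENNReal.tsum_le_tsum hlev
    _ = 16 * ∑' l : ℤ, liminf (fun U => B l * ∑' k : ℤ, I U l k) atTop := ENNReal.tsum_mul_left
    _ ≤ 16 * liminf (fun U => ∑' l : ℤ, B l * ∑' k : ℤ, I U l k) atTop := by
        gcongr
        exact tsum_liminf_le (fun U l => B l * ∑' k : ℤ, I U l k)
    _ ≤ 16 * (ENNReal.ofReal C * J) := by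
        gcongr
        refine (liminf_le_liminf (v := fun _ : ℕ => ENNReal.ofReal C * J)
          (Eventually.of_forall fun U => hbound U)).trans (le_of_eq ?_)
        exact liminf_const _
    _ = ENNReal.ofReal (16 * C) * J := by
        rw [ENNReal.ofReal_mul (by norm_num), ← mul_assoc]
        norm_num

end Pool.Agent.Helper27.EP
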